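import Pool.Agent.Helper27.OT.Prep
import Pool.Agent.Helper73.OT.PSys

/-!
# MP_2857a5_co : trees with few leaves
-/

set_option autoImplicit false

open Finset
open scoped Classical

namespace OT

noncomputable section

theorem bare_case {n : ℕ} {V : Type} [Fintype V] {D : V → V → Prop} {ε : ℝ} (h : Host D ε)
    (hn : Fintype.card V = n) {T : PTree n} {U : Finset (Fin n)} {K : ℕ} (hG : T.Good U K)
    {R : Type} [Fintype R] (S : Roles T U R) (Ra : Finset R)
    (hRa : ∀ v, v ∉ U → T.par v ∉ U → (S.role v ∈ Ra ↔ S.role (T.par v) ∈ Ra))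
    (θ : ℝ) (hsamp : Samp D ε θ)
    (hθ1 : ∀ ρ, ρ ∉ Ra → θ * (n : ℝ) ≤ ((S.cls ρ).card : ℝ))
    (k : ℕ) (hk : 2 ≤ k) (κ : ℝ) (hκθ : θ ≤ κ) (hκ : 0 < κ)
    (hroute : ∀ (W : ℕ → Finset V) (m : ℕ),
      (∀ i ≤ k, (W i).card = m ∧ Sample D ε (ε / 80) (W i)) →
      κ * (n : ℝ) ≤ (m : ℝ) → ∀ b : ℕ → Bool,
      ∀ (L : Type) [Fintype L], Fintype.card L = m → ∀ h e : L → V, Function.Injective h →
      Function.Injective e → (∀ l, h l ∈ W 0) → (∀ l, e l ∈ W k) →
      ∃ p : L → ℕ → V, PSys D k b W p ∧ (∀ l, p l 0 = h l) ∧ ∀ l, p l k = e l)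
    (ω : ℕ → Bool) (Y : Finset R)
    (hY1 : ∀ ρ ∈ Y, ρ ∉ Ra ∧ (S.cls ρ).Nonempty)
    (hY2 : ∀ v, v ∉ U → S.role v ∈ Y →
        (∀ i ≤ k, T.par^[i] v ∉ U) ∧ (∀ i, 1 ≤ i → i ≤ k → T.nch (T.par^[i] v) = 1) ∧
        ∀ i < k, T.sg (T.par^[i] v) = ω (k - 1 - i))
    (hY3 : ∀ v w, v ∉ U → w ∉ U → S.role v ∈ Y → S.role w ∈ Y → v ≠ w → ∀ i ≤ k, ∀ j ≤ k,
        T.par^[i] v ≠ T.par^[j] w)
    (hκY : κ * (n : ℝ) ≤ ((∑ ρ ∈ Y, (S.cls ρ).card : ℕ) : ℝ)) (hn0 : 0 < n)
    (hNB1 : ((NBof S Ra).card : ℝ) ≤ ε ^ 2 / 2000 * (κ * n))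
    (hNB2 : ((NBof S Ra).card : ℝ) ≤ ε / 400 * (κ * n)) :
    T.Emb D := by
  have hε := h.pos
  have hε1 := h.le
  set NB := NBof S Ra with hNBdef
  have memNB : ∀ v, v ∈ NB ↔ v ∈ U ∨ S.role v ∈ Ra := fun v => mem_NBof S Ra v
  set m := ∑ ρ ∈ Y, (S.cls ρ).card with hm
  set YV : Finset (Fin n) := univ.filter fun v => v ∉ U ∧ S.role v ∈ Y with hYV
  have memYV : ∀ v, v ∈ YV ↔ v ∉ U ∧ S.role v ∈ Y := by intro v; simp [hYV]
  have hYVm : YV.card = m := card_cls_sum S Y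
  have hnR : (0 : ℝ) < n := by exact_mod_cast hn0
  have hmpos : 0 < (m : ℝ) := lt_of_lt_of_le (by positivity) hκY
  have hmpos' : 0 < m := by exact_mod_cast hmpos
  have notroot : ∀ v : Fin n, v ∉ U → (v : ℕ) ≠ 0 := fun v hv h0 => hv (hG.root v h0)
  -- the chain above a vertex of `YV`
  have chU : ∀ y ∈ YV, ∀ i ≤ k, T.par^[i] y ∉ U := fun y hy =>
    (hY2 y ((memYV y).mp hy).1 ((memYV y).mp hy).2).1
  have chN : ∀ y ∈ YV, ∀ i, 1 ≤ i → i ≤ k → T.nch (T.par^[i] y) = 1 := fun y hy =>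
    (hY2 y ((memYV y).mp hy).1 ((memYV y).mp hy).2).2.1
  have chS : ∀ y ∈ YV, ∀ i < k, T.sg (T.par^[i] y) = ω (k - 1 - i) := fun y hy =>
    (hY2 y ((memYV y).mp hy).1 ((memYV y).mp hy).2).2.2
  have chR : ∀ y ∈ YV, ∀ i ≤ k, S.role (T.par^[i] y) ∉ Ra := by
    intro y hy i
    induction i with
    | zero =>
      intro _
      exact (hY1 _ ((memYV y).mp hy).2).1
    | succ i ih =>
      intro hi hr
      rw [Function.iterate_succ_apply'] at hr
      refine ih (by omega) ((hRa _ (chU y hy i (by omega)) ?_).mpr hr)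
      rw [← Function.iterate_succ_apply' T.par i y]
      exact chU y hy (i + 1) hi
  have dec : ∀ y ∈ YV, ∀ i j, i < j → j ≤ k → T.par^[j] y < T.par^[i] y := by
    intro y hy i j hij
    induction j with
    | zero => omega
    | succ j ih =>
      intro hj
      have h1 : T.par^[j + 1] y < T.par^[j] y := by
        rw [Function.iterate_succ_apply']
        exact T.lt _ (notroot _ (chU y hy j (by omega)))
      rcases Nat.lt_succ_iff_lt_or_eq.mp hij with h2 | h2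
      · exact lt_trans h1 (ih h2 (by omega))
      · rw [h2]
        exact h1
  have uniq : ∀ y ∈ YV, ∀ y' ∈ YV, ∀ i ≤ k, ∀ j ≤ k, T.par^[i] y = T.par^[j] y' →
      y = y' ∧ i = j := by
    intro y hy y' hy' i hi j hj he
    have h1 : y = y' := by
      by_contra hne
      exact hY3 y y' ((memYV y).mp hy).1 ((memYV y').mp hy').1 ((memYV y).mp hy).2
        ((memYV y').mp hy').2 hne i hi j hj he
    subst h1
    refine ⟨rfl, ?_⟩
    by_contra hne
    rcases Nat.lt_or_gt_of_ne hne with h2 | h2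
    · have := dec y hy i j h2 hj
      rw [he] at this
      exact lt_irrefl _ this
    · have := dec y hy j i h2 hi
      rw [he] at this
      exact lt_irrefl _ this
  have clos : ∀ i ≤ k, ∀ y ∈ YV, ∀ v, v ∉ U → S.role v = S.role (T.par^[i] y) →
      ∃ y' ∈ YV, S.role y' = S.role y ∧ T.par^[i] y' = v := by
    intro i
    induction i with
    | zero =>
      intro _ y hy v hv hr
      refine ⟨v, ?_, hr, rfl⟩
      rw [memYV, hr]
      exact ⟨hv, ((memYV y).mp hy).2⟩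
    | succ i ih =>
      intro hi y hy v hv hr
      have h1 := chU y hy i (by omega)
      have h2 := chU y hy (i + 1) hi
      rw [Function.iterate_succ_apply'] at h2 hr
      obtain ⟨w, hw1, hw2, hw3⟩ := S.surj _ h1 h2 v hv hr
      obtain ⟨y', hy'1, hy'2, hy'3⟩ := ih (by omega) y hy w hw1 hw2
      refine ⟨y', hy'1, hy'2, ?_⟩
      rw [Function.iterate_succ_apply', hy'3, hw3]
  have onlych : ∀ v : Fin n, (v : ℕ) ≠ 0 → ∀ y ∈ YV, ∀ i < k, T.par v = T.par^[i + 1] y →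
      v = T.par^[i] y := by
    intro v hv0 y hy i hi he
    have h1 := chN y hy (i + 1) (by omega) (by omega)
    rw [← he] at h1
    unfold PTree.nch at h1
    obtain ⟨a, ha⟩ := Finset.card_eq_one.mp h1
    have h2 : v ∈ T.ch (T.par v) := by simp [PTree.ch, hv0]
    have h3 : T.par^[i] y ∈ T.ch (T.par v) := by
      simp only [PTree.ch, mem_filter, mem_univ, true_and]
      refine ⟨notroot _ (chU y hy i (by omega)), ?_⟩
      rw [he, Function.iterate_succ_apply']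
    rw [ha, Finset.mem_singleton] at h2 h3
    rw [h2, h3]
  -- the deferred roles
  set DR : Finset R := univ.filter fun ρ =>
    ∃ y ∈ YV, ∃ i, 1 ≤ i ∧ i < k ∧ S.role (T.par^[i] y) = ρ with hDRdef
  have memDR : ∀ ρ, ρ ∈ DR ↔ ∃ y ∈ YV, ∃ i, 1 ≤ i ∧ i < k ∧ S.role (T.par^[i] y) = ρ := by
    intro ρ; simp [hDRdef]
  have memDf : ∀ v, v ∉ U → (S.role v ∈ DR ↔
      ∃ y ∈ YV, ∃ i, 1 ≤ i ∧ i < k ∧ T.par^[i] y = v) := by
    intro v hv
    rw [memDR]
    constructor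
    · rintro ⟨y, hy, i, hi1, hi2, hi3⟩
      obtain ⟨y', hy'1, -, hy'3⟩ := clos i hi2.le y hy v hv hi3.symm
      exact ⟨y', hy'1, i, hi1, hi2, hy'3⟩
    · rintro ⟨y, hy, i, hi1, hi2, rfl⟩
      exact ⟨y, hy, i, hi1, hi2, rfl⟩
  have hdisj : Disjoint Ra DR := by
    rw [Finset.disjoint_left]
    intro ρ h1 h2
    rw [memDR] at h2
    obtain ⟨y, hy, i, hi1, hi2, rfl⟩ := h2
    exact chR y hy i hi2.le h1
  have hDR : ∀ v : Fin n, (v : ℕ) ≠ 0 → v ∈ NB → T.par v ∉ U → S.role (T.par v) ∉ DR := by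
    intro v hv0 hv hp hd
    rw [memDf _ hp] at hd
    obtain ⟨y, hy, i, hi1, hi2, hi3⟩ := hd
    obtain ⟨j, rfl⟩ : ∃ j, i = j + 1 := ⟨i - 1, by omega⟩
    have h1 := onlych v hv0 y hy j (by omega) hi3.symm
    rw [memNB, h1] at hv
    rcases hv with hv | hv
    · exact chU y hy j (by omega) hv
    · exact chR y hy j (by omega) hv
  have hDfcard : (univ.filter fun v => v ∉ U ∧ S.role v ∈ DR).card = (k - 1) * m := by
    have h1 : (univ.filter fun v => v ∉ U ∧ S.role v ∈ DR) =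
        (Finset.Ico 1 k ×ˢ YV).image fun q : ℕ × Fin n => T.par^[q.1] q.2 := by
      ext v
      simp only [mem_filter, mem_univ, true_and, Finset.mem_image, Finset.mem_product,
        Finset.mem_Ico, Prod.exists]
      constructor
      · rintro ⟨hv, hd⟩
        rw [memDf v hv] at hd
        obtain ⟨y, hy, i, hi1, hi2, hi3⟩ := hd
        exact ⟨i, y, ⟨⟨hi1, hi2⟩, hy⟩, hi3⟩
      · rintro ⟨i, y, ⟨⟨hi1, hi2⟩, hy⟩, rfl⟩
        have := chU y hy i hi2.le
        refine ⟨this, ?_⟩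
        rw [memDf _ this]
        exact ⟨y, hy, i, hi1, hi2, rfl⟩
    rw [h1, Finset.card_image_of_injOn, Finset.card_product, Nat.card_Ico, hYVm]
    rintro ⟨i, y⟩ hi ⟨j, y'⟩ hj he
    simp only [Finset.coe_product, Set.mem_prod, Finset.mem_coe, Finset.mem_Ico] at hi hj
    obtain ⟨h2, h3⟩ := uniq y hi.2 y' hj.2 i hi.1.2.le j hj.1.2.le he
    rw [h2, h3]
  obtain ⟨φ, W, Q, hW, hWd, hQ, hQd, hWQ, hφW, hφQ, hφinj, hφe⟩ := prep h hn hG S Ra DR hRa
    hdisj hDR (Fin (k - 1)) (fun i => (if (i : ℕ) = 0 then NB.card else 0) + m) ⟨0, by omega⟩ (by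
      rw [hDfcard, Finset.sum_add_distrib]
      congr 1
      · rw [Finset.sum_eq_single (⟨0, by omega⟩ : Fin (k - 1))]
        · simp [hNBdef]
        · intro b _ hb
          rw [if_neg]
          intro h0
          exact hb (Fin.ext h0)
        · intro hb
          exact absurd (mem_univ _) hb
      · simp) θ hsamp hθ1 (by
      intro i
      push_cast
      have h1 : θ * (n : ℝ) ≤ κ * n := by gcongr
      have h2 : (0 : ℝ) ≤ (if (i : ℕ) = 0 then (NB.card : ℝ) else 0) := by positivity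
      linarith) (by
      simp only [if_true]
      push_cast
      refine le_trans hNB1 ?_
      have h2 : (0 : ℝ) ≤ (NB.card : ℝ) := by positivity
      have : κ * (n : ℝ) ≤ (NB.card : ℝ) + m := by linarith
      gcongr) (by simp only [if_true]; omega)
  set i₀ : Fin (k - 1) := ⟨0, by omega⟩ with hi₀
  -- the unused parts
  set Im : Finset V := NB.image φ with hIm
  have hImQ : Im ⊆ Q i₀ := by
    intro x hx
    rw [hIm, Finset.mem_image] at hx
    obtain ⟨v, hv, rfl⟩ := hx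
    exact hφQ v hv
  have hImcard : Im.card = NB.card := by
    rw [hIm, Finset.card_image_of_injOn]
    intro v hv w hw hvw
    exact hφinj (Or.inl hv) (Or.inl hw) hvw
  have hpart : ∀ j : Fin (k - 1), (Q j \ Im).card = m ∧ Sample D ε (ε / 80) (Q j \ Im) := by
    intro j
    by_cases hj : j = i₀
    · subst hj
      have hc := (hQ i₀).1
      simp only [hi₀, if_true] at hc
      rw [← hi₀] at hc
      constructor
      · rw [Finset.card_sdiff_of_subset hImQ, hc, hImcard]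
        omega
      · have := (hQ i₀).2.sub (δ := ε / 400) (R := Q i₀ \ Im) (by positivity) (by positivity)
          (by linarith) Finset.sdiff_subset (by
            rw [Finset.sdiff_sdiff_eq_self hImQ, hImcard, hc]
            refine le_trans hNB2 ?_
            push_cast
            have h2 : (0 : ℝ) ≤ (NB.card : ℝ) := by positivity
            have : κ * (n : ℝ) ≤ (NB.card : ℝ) + m := by linarith
            gcongr)
        exact this.mono (by linarith)
    · have h1 : Q j \ Im = Q j := by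
        rw [Finset.sdiff_eq_self_iff_disjoint]
        exact Finset.disjoint_of_subset_right hImQ (hQd j i₀ hj)
      rw [h1]
      refine ⟨?_, (hQ j).2.mono (by linarith)⟩
      rw [(hQ j).1, if_neg]
      · omega
      · intro h0
        exact hj (Fin.ext h0)
  -- the end sets
  have hend : ∀ t, (t = 0 ∨ t = k) → ∀ y ∈ YV, S.role (T.par^[t] y) ∉ DR := by
    intro t ht y hy hd
    rw [memDf _ (chU y hy t (by omega))] at hd
    obtain ⟨y', hy', i, hi1, hi2, hi3⟩ := hd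
    have := (uniq y' hy' y hy i hi2.le t (by omega) hi3).2
    omega
  have hends : ∀ t, (t = 0 ∨ t = k) → ∃ P : Finset V, P.card = m ∧ Sample D ε (ε / 80) P ∧
      ∀ y ∈ YV, φ (T.par^[t] y) ∈ P := by
    intro t ht
    have htk : t ≤ k := by omega
    set PR : Finset R := YV.image fun y => S.role (T.par^[t] y) with hPR
    have PRok : ∀ ρ ∈ PR, ρ ∉ Ra ∧ ρ ∉ DR := by
      intro ρ hρ
      rw [hPR, Finset.mem_image] at hρ
      obtain ⟨y, hy, rfl⟩ := hρ
      exact ⟨chR y hy t htk, hend t ht y hy⟩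
    refine ⟨PR.biUnion W, ?_, ?_, ?_⟩
    · rw [Finset.card_biUnion (fun ρ hρ ρ' hρ' hne =>
        hWd ρ (PRok ρ hρ).1 (PRok ρ hρ).2 ρ' (PRok ρ' hρ').1 (PRok ρ' hρ').2 hne)]
      rw [Finset.sum_congr rfl (fun ρ hρ => (hW ρ (PRok ρ hρ).1 (PRok ρ hρ).2).1)]
      rw [← card_cls_sum, ← hYVm]
      have : (univ.filter fun v => v ∉ U ∧ S.role v ∈ PR) = YV.image fun y => T.par^[t] y := by
        ext u
        simp only [mem_filter, mem_univ, true_and, Finset.mem_image, hPR]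
        constructor
        · rintro ⟨hu, y, hy, hyu⟩
          obtain ⟨y', hy', -, hy'3⟩ := clos t htk y hy u hu hyu.symm
          exact ⟨y', hy', hy'3⟩
        · rintro ⟨y, hy, rfl⟩
          exact ⟨chU y hy t htk, y, hy, rfl⟩
      rw [this, Finset.card_image_of_injOn]
      intro y hy y' hy' he
      exact (uniq y hy y' hy' t htk t htk he).1
    · apply Sample.biUnion
      · intro ρ hρ
        exact (hW ρ (PRok ρ hρ).1 (PRok ρ hρ).2).2.mono (by linarith)
      · intro ρ hρ ρ' hρ' hne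
        exact hWd ρ (PRok ρ hρ).1 (PRok ρ hρ).2 ρ' (PRok ρ' hρ').1 (PRok ρ' hρ').2 hne
    · intro y hy
      rw [Finset.mem_biUnion]
      refine ⟨S.role (T.par^[t] y), Finset.mem_image_of_mem _ hy, ?_⟩
      exact hφW _ (chU y hy t htk) (chR y hy t htk) (hend t ht y hy)
  obtain ⟨Pt, hPt1, hPt2, hPt3⟩ := hends k (Or.inr rfl)
  obtain ⟨Pb, hPb1, hPb2, hPb3⟩ := hends 0 (Or.inl rfl)
  -- routing
  set Wr : ℕ → Finset V := fun i =>
    if i = 0 then Pt else if i = k then Pb else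
      if hi : i - 1 < k - 1 then Q ⟨i - 1, hi⟩ \ Im else ∅ with hWr
  have hWr0 : Wr 0 = Pt := by simp [hWr]
  have hWrk : Wr k = Pb := by
    have : k ≠ 0 := by omega
    simp [hWr, this]
  have hWri : ∀ i (hi1 : 1 ≤ i) (hi2 : i < k), Wr i = Q ⟨i - 1, by omega⟩ \ Im := by
    intro i hi1 hi2
    simp only [hWr]
    rw [if_neg (by omega), if_neg (by omega), dif_pos (by omega)]
  have keptφ : ∀ y ∈ YV, ∀ t, (t = 0 ∨ t = k) → (T.par^[t] y ∈ NB ∨ S.role (T.par^[t] y) ∉ DR) :=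
    fun y hy t ht => Or.inr (hend t ht y hy)
  obtain ⟨p, ⟨hp1, hp2, hp3⟩, hp4, hp5⟩ := hroute Wr m (by
      intro i hi
      by_cases h0 : i = 0
      · rw [h0, hWr0]
        exact ⟨hPt1, hPt2⟩
      by_cases h1 : i = k
      · rw [h1, hWrk]
        exact ⟨hPb1, hPb2⟩
      · rw [hWri i (by omega) (by omega)]
        exact hpart _) hκY ω {y // y ∈ YV} (by rw [Fintype.card_coe, hYVm])
      (fun y => φ (T.par^[k] y.1)) (fun y => φ y.1) (by
      intro y y' he
      have h1 := hφinj (keptφ y.1 y.2 k (Or.inr rfl)) (keptφ y'.1 y'.2 k (Or.inr rfl)) he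
      exact Subtype.ext (uniq _ y.2 _ y'.2 k le_rfl k le_rfl h1).1) (by
      intro y y' he
      exact Subtype.ext (hφinj (keptφ y.1 y.2 0 (Or.inl rfl)) (keptφ y'.1 y'.2 0 (Or.inl rfl)) he))
      (by
      intro y
      rw [hWr0]
      exact hPt3 y.1 y.2) (by
      intro y
      rw [hWrk]
      exact hPb3 y.1 y.2)
  -- the final embedding
  set ψ : Fin n → V := fun v =>
    if hv : ∃ q : {y // y ∈ YV} × ℕ, 1 ≤ q.2 ∧ q.2 < k ∧ T.par^[q.2] q.1.1 = v then
      p hv.choose.1 (k - hv.choose.2) else φ v with hψ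
  have ψ1 : ∀ (y : {y // y ∈ YV}) (i : ℕ), 1 ≤ i → i < k →
      ψ (T.par^[i] y.1) = p y (k - i) := by
    intro y i hi1 hi2
    have hv : ∃ q : {y // y ∈ YV} × ℕ, 1 ≤ q.2 ∧ q.2 < k ∧ T.par^[q.2] q.1.1 = T.par^[i] y.1 :=
      ⟨(y, i), hi1, hi2, rfl⟩
    have hc := hv.choose_spec
    have h1 := uniq _ hv.choose.1.2 _ y.2 _ hc.2.1.le i hi2.le hc.2.2
    simp only [hψ]
    rw [dif_pos hv]
    have h2 : hv.choose.1 = y := Subtype.ext h1.1
    rw [h2, h1.2]
  have ψ2 : ∀ v, (¬ ∃ y ∈ YV, ∃ i, 1 ≤ i ∧ i < k ∧ T.par^[i] y = v) → ψ v = φ v := by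
    intro v hv
    simp only [hψ]
    rw [dif_neg]
    rintro ⟨⟨y, i⟩, h1, h2, h3⟩
    exact hv ⟨y.1, y.2, i, h1, h2, h3⟩
  have ψ3 : ∀ (y : {y // y ∈ YV}) (i : ℕ), i ≤ k → ψ (T.par^[i] y.1) = p y (k - i) := by
    intro y i hi
    by_cases h0 : i = 0
    · subst h0
      rw [ψ2 _ (by
        rintro ⟨y', hy', j, hj1, hj2, hj3⟩
        have := (uniq y' hy' y.1 y.2 j hj2.le 0 (by omega) hj3).2
        omega)]
      have := hp5 y
      simpa using this.symm
    by_cases h1 : i = k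
    · subst h1
      rw [ψ2 _ (by
        rintro ⟨y', hy', j, hj1, hj2, hj3⟩
        have := (uniq y' hy' y.1 y.2 j hj2.le i le_rfl hj3).2
        omega)]
      have := hp4 y
      simpa using this.symm
    · exact ψ1 y i (by omega) (by omega)
  have hkept : ∀ v, (¬ ∃ y ∈ YV, ∃ i, 1 ≤ i ∧ i < k ∧ T.par^[i] y = v) →
      v ∈ NB ∨ S.role v ∉ DR := by
    intro v hv
    by_cases hU : v ∈ U
    · left
      rw [memNB]
      exact Or.inl hU
    · right
      rw [memDf v hU]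
      exact hv
  have hdis : ∀ v, (¬ ∃ y ∈ YV, ∃ i, 1 ≤ i ∧ i < k ∧ T.par^[i] y = v) →
      ∀ (y : {y // y ∈ YV}) (i : ℕ), 1 ≤ i → i < k → φ v ≠ p y i := by
    intro v hv y i hi1 hi2 he
    have h1 := hp1 y i hi2.le
    rw [← he, hWri i hi1 hi2, Finset.mem_sdiff] at h1
    by_cases hvn : v ∈ NB
    · apply h1.2
      rw [hIm]
      exact Finset.mem_image_of_mem _ hvn
    · have hvn' := hvn
      rw [memNB, not_or] at hvn'
      have h2 := (hkept v hv).resolve_left hvn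
      exact Finset.disjoint_left.mp (hWQ _ hvn'.2 h2 _) (hφW v hvn'.1 hvn'.2 h2) h1.1
  refine ⟨ψ, ?_, ?_⟩
  · intro v w hvw
    by_cases hv : ∃ y ∈ YV, ∃ i, 1 ≤ i ∧ i < k ∧ T.par^[i] y = v <;>
    by_cases hw : ∃ y ∈ YV, ∃ i, 1 ≤ i ∧ i < k ∧ T.par^[i] y = w
    · obtain ⟨y, hy, i, hi1, hi2, rfl⟩ := hv
      obtain ⟨y', hy', j, hj1, hj2, rfl⟩ := hw
      rw [ψ1 ⟨y, hy⟩ i hi1 hi2, ψ1 ⟨y', hy'⟩ j hj1 hj2] at hvw
      have h1 := hp1 ⟨y, hy⟩ (k - i) (by omega)
      have h2 := hp1 ⟨y', hy'⟩ (k - j) (by omega)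
      rw [← hvw] at h2
      rw [hWri (k - i) (by omega) (by omega), Finset.mem_sdiff] at h1
      rw [hWri (k - j) (by omega) (by omega), Finset.mem_sdiff] at h2
      have hij : i = j := by
        by_contra hne
        have h3 := hQd ⟨k - i - 1, by omega⟩ ⟨k - j - 1, by omega⟩ (by
          intro h4
          have := congrArg Fin.val h4
          simp only at this
          omega)
        exact Finset.disjoint_left.mp h3 h1.1 h2.1
      subst hij
      have h3 := hp2 (k - i) (by omega) hvw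
      have h4 : y = y' := congrArg Subtype.val h3
      rw [h4]
    · obtain ⟨y, hy, i, hi1, hi2, rfl⟩ := hv
      rw [ψ1 ⟨y, hy⟩ i hi1 hi2, ψ2 w hw] at hvw
      exact absurd hvw.symm (hdis w hw ⟨y, hy⟩ (k - i) (by omega) (by omega))
    · obtain ⟨y, hy, i, hi1, hi2, rfl⟩ := hw
      rw [ψ1 ⟨y, hy⟩ i hi1 hi2, ψ2 v hv] at hvw
      exact absurd hvw (hdis v hv ⟨y, hy⟩ (k - i) (by omega) (by omega))
    · rw [ψ2 v hv, ψ2 w hw] at hvw
      exact hφinj (hkept v hv) (hkept w hw) hvw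
  · intro v hv0
    by_cases hv : ∃ y ∈ YV, ∃ i < k, T.par^[i] y = v
    · obtain ⟨y, hy, i, hi, rfl⟩ := hv
      have h1 := ψ3 ⟨y, hy⟩ i hi.le
      have h2 := ψ3 ⟨y, hy⟩ (i + 1) hi
      rw [Function.iterate_succ_apply'] at h2
      simp only at h1 h2
      rw [h1, h2, chS y hy i hi]
      have h3 := hp3 ⟨y, hy⟩ (k - 1 - i) (by omega)
      have h4 : k - (i + 1) = k - 1 - i := by omega
      have h5 : k - i = k - 1 - i + 1 := by omega
      rw [h4, h5]
      exact h3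
    · have h1 : ¬ ∃ y ∈ YV, ∃ i, 1 ≤ i ∧ i < k ∧ T.par^[i] y = v := by
        rintro ⟨y, hy, i, -, hi2, hi3⟩
        exact hv ⟨y, hy, i, hi2, hi3⟩
      have h2 : ¬ ∃ y ∈ YV, ∃ i, 1 ≤ i ∧ i < k ∧ T.par^[i] y = T.par v := by
        rintro ⟨y, hy, i, hi1, hi2, hi3⟩
        obtain ⟨j, rfl⟩ : ∃ j, i = j + 1 := ⟨i - 1, by omega⟩
        exact hv ⟨y, hy, j, by omega, (onlych v hv0 y hy j (by omega) hi3.symm).symm⟩
      rw [ψ2 v h1, ψ2 _ h2]
      exact hφe v hv0 (hkept v h1) (hkept _ h2)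

end

end OT
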