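import Pool.Agent.Helper28.OT.RO0
import Pool.Agent.Helper73.OT.BL

/-!
# MP_2857a5_co : module RO (routing)
-/

set_option autoImplicit false

open Finset
open scoped Classical

namespace OT

noncomputable section

theorem routing (ε : ℝ) (hε : 0 < ε) (hε1 : ε ≤ 1) : ∃ B : ℕ, 0 < B ∧ ∀ θ : ℝ, 0 < θ →
    ∃ N₀ : ℕ, ∀ (V : Type) [Fintype V], N₀ ≤ Fintype.card V → ∀ D : V → V → Prop, Host D ε →
    ∀ (W : ℕ → Finset V) (m : ℕ), (∀ i ≤ 9 * B, (W i).card = m ∧ Sample D ε (ε / 80) (W i)) →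
    θ * (Fintype.card V : ℝ) ≤ (m : ℝ) → ∀ b : ℕ → Bool,
    ∀ (L : Type) [Fintype L], Fintype.card L = m → ∀ h e : L → V, Function.Injective h →
    Function.Injective e → (∀ l, h l ∈ W 0) → (∀ l, e l ∈ W (9 * B)) →
    ∃ p : L → ℕ → V, PSys D (9 * B) b W p ∧ (∀ l, p l 0 = h l) ∧ ∀ l, p l (9 * B) = e l :=
  routing_of_block ε (block ε hε hε1)

end

end OT
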