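import Pool.Agent.Helper27.OT.LeafCase
import Pool.Agent.Helper27.OT.BareCase
import Pool.Agent.Helper40.OT.SA
import Pool.Agent.Helper89.OT.TD
import Pool.Agent.Helper73.OT.LC
import Pool.Agent.Helper3.OT.SC
import Pool.Agent.Helper27.OT.RO

/-!
# MP_2857a5_co : the main theorem of the non-extremal case
-/

set_option autoImplicit false

open Finset
open scoped Classical

namespace OT

noncomputable section

theorem final_step {V : Type} [Fintype V] {D : V → V → Prop} {ε : ℝ} (h : Host D ε) {n : ℕ}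
    (hn : Fintype.card V = n) (hn0 : 0 < n) {T : PTree n} {Δ : ℕ} (hΔ : T.Deg Δ)
    {U : Finset (Fin n)} {K : ℕ} (hG : T.Good U K) {R : Type} [Fintype R] {M : ℕ}
    (hM : Fintype.card R = M) (S : Roles T U R) (k : ℕ) (hk2 : 2 ≤ k) (C₁ α κ δ θ : ℝ)
    (hC₁ : C₁ = 3 * ((Δ : ℝ) + 1) ^ (k + 1)) (hC₁1 : 1 ≤ C₁) (hα0 : 0 < α)
    (hα1 : C₁ * α = 1 / 4) (hκ0 : 0 < κ) (hκ1 : κ * (4 * ((Δ : ℝ) + 1)) ≤ α)
    (hκ2 : κ * (2 * 2 ^ k * ((k : ℝ) + 1)) ≤ 1) (hδ0 : 0 < δ) (hδ : δ * 8000 = ε ^ 2 * κ)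
    (hδκ : δ * 8000 ≤ κ) (hθ0 : 0 < θ) (hθδ : θ ≤ δ) (hθM : (M : ℝ) * θ ≤ δ)
    (hU : (U.card : ℝ) ≤ δ * (n : ℝ)) (hsamp : Samp D ε θ)
    (hroute : ∀ (W : ℕ → Finset V) (m : ℕ),
      (∀ i ≤ k, (W i).card = m ∧ Sample D ε (ε / 80) (W i)) →
      κ * (n : ℝ) ≤ (m : ℝ) → ∀ b : ℕ → Bool,
      ∀ (L : Type) [Fintype L], Fintype.card L = m → ∀ h e : L → V, Function.Injective h →
      Function.Injective e → (∀ l, h l ∈ W 0) → (∀ l, e l ∈ W k) →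
      ∃ p : L → ℕ → V, PSys D k b W p ∧ (∀ l, p l 0 = h l) ∧ ∀ l, p l k = e l) :
    T.Emb D := by
  have hε := h.pos
  have hε1 := h.le
  have hΔ0 : (0 : ℝ) ≤ (Δ : ℝ) := by positivity
  have hnR : (0 : ℝ) < (n : ℝ) := by exact_mod_cast hn0
  have hε2 : ε ^ 2 ≤ ε := by nlinarith
  have hκn : 0 < κ * (n : ℝ) := by positivity
  -- the rare roles
  obtain ⟨Ra, memRa⟩ : ∃ Ra : Finset R, ∀ ρ, ρ ∈ Ra ↔ ((S.cls ρ).card : ℝ) < θ * (n : ℝ) :=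
    ⟨univ.filter fun ρ => ((S.cls ρ).card : ℝ) < θ * (n : ℝ), by intro ρ; simp⟩
  have hRa : ∀ v, v ∉ U → T.par v ∉ U → (S.role v ∈ Ra ↔ S.role (T.par v) ∈ Ra) := by
    intro v hv hp
    rw [memRa, memRa, S.cls_card hv hp]
  have hθ1 : ∀ ρ, ρ ∉ Ra → θ * (n : ℝ) ≤ ((S.cls ρ).card : ℝ) := by
    intro ρ hρ
    rw [memRa, not_lt] at hρ
    exact hρ
  -- few vertices are embedded greedily
  obtain ⟨b, hb⟩ : ∃ b : ℝ, b = ((NBof S Ra).card : ℝ) := ⟨_, rfl⟩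
  have hb0 : 0 ≤ b := by rw [hb]; positivity
  have hNBc : b ≤ 2 * δ * (n : ℝ) := by
    have h2 : (NBof S Ra).card ≤ U.card + ∑ ρ ∈ Ra, (S.cls ρ).card := NBof_card S Ra
    have h3 : ((∑ ρ ∈ Ra, (S.cls ρ).card : ℕ) : ℝ) ≤ (M : ℝ) * (θ * (n : ℝ)) := by
      push_cast
      calc (∑ ρ ∈ Ra, ((S.cls ρ).card : ℝ)) ≤ ∑ ρ ∈ Ra, θ * (n : ℝ) := by
            apply Finset.sum_le_sum
            intro ρ hρ
            exact ((memRa ρ).mp hρ).le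
        _ = (Ra.card : ℝ) * (θ * (n : ℝ)) := by
            rw [Finset.sum_const, nsmul_eq_mul]
        _ ≤ (M : ℝ) * (θ * (n : ℝ)) := by
            have : Ra.card ≤ M := by
              rw [← hM]
              exact Finset.card_le_univ Ra
            have h' : (Ra.card : ℝ) ≤ (M : ℝ) := by exact_mod_cast this
            apply mul_le_mul_of_nonneg_right h'
            positivity
    have h4 : b ≤ (U.card : ℝ) + ((∑ ρ ∈ Ra, (S.cls ρ).card : ℕ) : ℝ) := by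
      rw [hb]
      exact_mod_cast h2
    have h5 : (M : ℝ) * (θ * (n : ℝ)) ≤ δ * (n : ℝ) := by
      rw [← mul_assoc]
      exact mul_le_mul_of_nonneg_right hθM hnR.le
    linarith
  have hNB1 : b ≤ ε ^ 2 / 2000 * (κ * (n : ℝ)) := by
    have h1 : ε ^ 2 / 2000 * (κ * (n : ℝ)) = 4 * δ * n := by
      have : ε ^ 2 / 2000 * (κ * (n : ℝ)) = ε ^ 2 * κ / 2000 * n := by ring
      rw [this, ← hδ]
      ring
    rw [h1]
    have : 0 ≤ δ * (n : ℝ) := by positivity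
    linarith
  have hNB2 : b ≤ ε / 400 * (κ * (n : ℝ)) := by
    refine le_trans hNB1 ?_
    have h1 : ε ^ 2 / 2000 ≤ ε / 400 := by linarith
    exact mul_le_mul_of_nonneg_right h1 hκn.le
  have hNB3 : b * (2 * ((Δ : ℝ) + 1)) ≤ α * (n : ℝ) := by
    have h1 : b ≤ κ * (n : ℝ) := by
      refine le_trans hNBc ?_
      have : 2 * δ ≤ κ := by linarith
      exact mul_le_mul_of_nonneg_right this hnR.le
    have h2 : b * (2 * ((Δ : ℝ) + 1)) ≤ κ * (n : ℝ) * (2 * ((Δ : ℝ) + 1)) := by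
      apply mul_le_mul_of_nonneg_right h1
      positivity
    have h3 : κ * (4 * ((Δ : ℝ) + 1)) * (n : ℝ) ≤ α * (n : ℝ) :=
      mul_le_mul_of_nonneg_right hκ1 hnR.le
    have h4 : 0 ≤ κ * (n : ℝ) * (2 * ((Δ : ℝ) + 1)) := by positivity
    linarith
  by_cases hleaf : α * (n : ℝ) ≤ ((univ.filter fun v => T.nch v = 0).card : ℝ)
  · obtain ⟨σ, Λ, h1, h2, h3⟩ := leaf_roles Δ hΔ hG.root S Ra hRa
    have h3' : ((univ.filter fun v => T.nch v = 0).card : ℝ) ≤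
        2 * Δ * ((∑ ρ ∈ Λ, (S.cls ρ).card : ℕ) : ℝ) + (Δ + 1) * b := by
      rw [hb]
      exact_mod_cast h3
    rw [hb] at hNB1 hNB2
    refine leaf_case h hn hG S Ra hRa θ hsamp hθ1 σ Λ h1 h2 κ (by linarith) hκ0 ?_ hn0 hNB1 hNB2
    obtain ⟨s₀, hs₀⟩ : ∃ s₀ : ℝ, s₀ = ((∑ ρ ∈ Λ, (S.cls ρ).card : ℕ) : ℝ) := ⟨_, rfl⟩
    rw [← hs₀] at h3' ⊢
    have hs0 : 0 ≤ s₀ := by rw [hs₀]; positivity
    have h4 : α * (n : ℝ) ≤ 4 * ((Δ : ℝ) + 1) * s₀ := by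
      have h5 : α * (n : ℝ) ≤ 2 * Δ * s₀ + (Δ + 1) * b := le_trans hleaf h3'
      linarith
    have h5 : κ * (4 * ((Δ : ℝ) + 1)) * (n : ℝ) ≤ α * (n : ℝ) :=
      mul_le_mul_of_nonneg_right hκ1 hnR.le
    have h6 : 4 * ((Δ : ℝ) + 1) * (κ * (n : ℝ)) ≤ 4 * ((Δ : ℝ) + 1) * s₀ := by
      linarith
    exact le_of_mul_le_mul_left h6 (by positivity)
  · rw [not_le] at hleaf
    obtain ⟨ω, Y, h1, h2, h3, h4⟩ := segment_roles Δ k (by omega) hΔ hG.root S Ra hRa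
    have h4' : (n : ℝ) ≤ 2 ^ k * (k + 1) * ((∑ ρ ∈ Y, (S.cls ρ).card : ℕ) : ℝ) +
        3 * (Δ + 1) ^ (k + 1) *
          (((univ.filter fun v => T.nch v = 0).card : ℝ) + b) := by
      rw [hb]
      exact_mod_cast h4
    rw [hb] at hNB1 hNB2
    refine bare_case h hn hG S Ra hRa θ hsamp hθ1 k hk2 κ (by linarith) hκ0
      hroute ω Y h1 h2 h3 ?_ hn0 hNB1 hNB2
    obtain ⟨s₀, hs₀⟩ : ∃ s₀ : ℝ, s₀ = ((∑ ρ ∈ Y, (S.cls ρ).card : ℕ) : ℝ) := ⟨_, rfl⟩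
    rw [← hs₀] at h4' ⊢
    have h5 : b ≤ α * (n : ℝ) := by
      refine le_trans ?_ hNB3
      have : b * 1 ≤ b * (2 * ((Δ : ℝ) + 1)) := by
        apply mul_le_mul_of_nonneg_left _ hb0
        linarith
      linarith
    rw [← hC₁] at h4'
    have h6 : C₁ * (((univ.filter fun v => T.nch v = 0).card : ℝ) + b) ≤ (n : ℝ) / 2 := by
      have h7 : ((univ.filter fun v => T.nch v = 0).card : ℝ) + b ≤
        2 * (α * (n : ℝ)) := by linarith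
      calc C₁ * (((univ.filter fun v => T.nch v = 0).card : ℝ) + b)
          ≤ C₁ * (2 * (α * (n : ℝ))) := by
            apply mul_le_mul_of_nonneg_left h7
            linarith
        _ = 2 * (C₁ * α) * (n : ℝ) := by ring
        _ = (n : ℝ) / 2 := by rw [hα1]; ring
    have h8 : (n : ℝ) ≤ 2 * 2 ^ k * ((k : ℝ) + 1) * s₀ := by linarith
    have h9 : κ * (2 * 2 ^ k * ((k : ℝ) + 1)) * (n : ℝ) ≤ 1 * (n : ℝ) :=
      mul_le_mul_of_nonneg_right hκ2 hnR.le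
    have h10 : 2 * 2 ^ k * ((k : ℝ) + 1) * (κ * (n : ℝ)) ≤
        2 * 2 ^ k * ((k : ℝ) + 1) * s₀ := by linarith
    exact le_of_mul_le_mul_left h10 (by positivity)

theorem main (Δ : ℕ) (ε : ℝ) (hε : 0 < ε) (hε1 : ε ≤ 1) : ∃ N : ℕ, ∀ (V : Type) [Fintype V],
    N ≤ Fintype.card V → ∀ D : V → V → Prop, Host D ε →
    ∀ T : PTree (Fintype.card V), T.Deg Δ → T.Emb D := by
  obtain ⟨B, hB, hR⟩ := routing ε hε hε1
  obtain ⟨k, hk⟩ : ∃ k, k = 9 * B := ⟨_, rfl⟩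
  rw [← hk] at hR
  have hk2 : 2 ≤ k := by omega
  obtain ⟨C₁, hC₁⟩ : ∃ C₁ : ℝ, C₁ = 3 * ((Δ : ℝ) + 1) ^ (k + 1) := ⟨_, rfl⟩
  have hΔ0 : (0 : ℝ) ≤ (Δ : ℝ) := by positivity
  have hC₁1 : 1 ≤ C₁ := by
    have : (1 : ℝ) ≤ ((Δ : ℝ) + 1) ^ (k + 1) := one_le_pow₀ (by linarith)
    linarith
  obtain ⟨α, hα0, hα1⟩ : ∃ α : ℝ, 0 < α ∧ C₁ * α = 1 / 4 := by
    refine ⟨1 / (4 * C₁), by positivity, ?_⟩
    field_simp
  obtain ⟨κ, hκ0, hκ1', hκ2'⟩ : ∃ κ : ℝ, 0 < κ ∧ κ * (4 * ((Δ : ℝ) + 1)) ≤ α ∧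
      κ * (2 * 2 ^ k * ((k : ℝ) + 1)) ≤ 1 := by
    refine ⟨min (α / (4 * ((Δ : ℝ) + 1))) (1 / (2 * 2 ^ k * ((k : ℝ) + 1))), ?_, ?_, ?_⟩
    · apply lt_min <;> positivity
    · rw [← le_div_iff₀ (by positivity)]
      exact min_le_left _ _
    · rw [← le_div_iff₀ (by positivity)]
      exact min_le_right _ _
  have hε2 : ε ^ 2 ≤ ε := by nlinarith
  obtain ⟨δ, hδ0, hδ, hδκ⟩ : ∃ δ : ℝ, 0 < δ ∧ δ * 8000 = ε ^ 2 * κ ∧ δ * 8000 ≤ κ := by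
    refine ⟨ε ^ 2 * κ / 8000, by positivity, by ring, ?_⟩
    have : ε ^ 2 ≤ 1 := by nlinarith
    have : ε ^ 2 * κ ≤ 1 * κ := by gcongr
    linarith
  obtain ⟨K, N1, hTD⟩ := tree_dec Δ δ hδ0
  obtain ⟨M, hM⟩ := exists_roles Δ K
  have hM0 : (0 : ℝ) ≤ (M : ℝ) := by positivity
  obtain ⟨θ, hθ0, hθδ, hθM⟩ : ∃ θ : ℝ, 0 < θ ∧ θ ≤ δ ∧ (M : ℝ) * θ ≤ δ := by
    refine ⟨δ / ((M : ℝ) + 1), by positivity, ?_, ?_⟩
    · apply div_le_self hδ0.le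
      linarith
    · rw [mul_div_assoc', div_le_iff₀ (by positivity)]
      nlinarith
  obtain ⟨N2, hS⟩ := sampling (ε / 400) θ (by positivity) hθ0
  obtain ⟨N3, hR'⟩ := hR κ hκ0
  refine ⟨max N1 (max N2 (max N3 1)), ?_⟩
  intro V _ hN D h T hΔ
  have hN1 : N1 ≤ Fintype.card V := le_trans (le_max_left _ _) hN
  have hN2 : N2 ≤ Fintype.card V :=
    le_trans (le_trans (le_max_left _ _) (le_max_right _ _)) hN
  have hN3 : N3 ≤ Fintype.card V :=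
    le_trans (le_trans (le_trans (le_max_left _ _) (le_max_right _ _)) (le_max_right _ _)) hN
  have hN4 : 0 < Fintype.card V :=
    le_trans (le_trans (le_trans (le_max_right _ _) (le_max_right _ _)) (le_max_right _ _)) hN
  obtain ⟨U, hG, hU⟩ := hTD _ hN1 T hΔ
  obtain ⟨S⟩ := hM _ T U hΔ hG
  have hsamp : Samp D ε θ := by
    intro J _ s hs1 hs2
    obtain ⟨c, hc⟩ := hS V hN2 (Fam D ε) (fam_card D ε) J s hs1 hs2
    refine ⟨fun j => univ.filter fun v => c v = j, ?_, ?_⟩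
    · intro i j hij
      rw [Finset.disjoint_left]
      intro v hv hv'
      simp only [mem_filter, mem_univ, true_and] at hv hv'
      exact hij (hv.symm.trans hv')
    · intro j
      have h1 := hc j
      refine ⟨h1.1, ?_⟩
      intro F hF
      rw [h1.1]
      exact h1.2 F hF
  exact final_step h rfl hN4 hΔ hG (Fintype.card_fin M) S k hk2 C₁ α κ δ θ hC₁ hC₁1 hα0 hα1 hκ0
    hκ1' hκ2' hδ0 hδ hδκ hθ0 hθδ hθM hU hsamp
    (fun W m hW hm b L _ hL hf ef => hR' V hN3 D h W m hW hm b L hL hf ef)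

end

end OT
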