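import Mathlib

/-!
# MP_2857a5_co : spanning oriented trees in digraphs, definitions
-/

set_option autoImplicit false

open Finset
open scoped Classical

namespace OT

noncomputable section

/-! ### Digraphs -/

variable {V : Type} [Fintype V]

/-- `Adj D b u v` is the arc `u v` if `b`, and the arc `v u` otherwise. -/
def Adj (D : V → V → Prop) (b : Bool) (u v : V) : Prop := if b then D u v else D v u

/-- The out-neighbourhood (`b = true`) or in-neighbourhood (`b = false`). -/
def adjN (D : V → V → Prop) (b : Bool) (u : V) : Finset V := univ.filter fun v => Adj D b u v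

/-- The number of arcs from `X` to `Y`. -/
def arcs (D : V → V → Prop) (X Y : Finset V) : ℕ := ((X ×ˢ Y).filter fun p => D p.1 p.2).card

/-- There are two sets of about half the vertices with few arcs from the first to the second. -/
def Ext (D : V → V → Prop) (ε : ℝ) : Prop :=
  ∃ X Y : Finset V, (1 / 2 - ε) * (Fintype.card V : ℝ) ≤ (X.card : ℝ) ∧
    (1 / 2 - ε) * (Fintype.card V : ℝ) ≤ (Y.card : ℝ) ∧
    (arcs D X Y : ℝ) ≤ ε * (Fintype.card V : ℝ) ^ 2

/-- The vertices whose out-neighbourhood is close to that of `u`. -/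
def near (D : V → V → Prop) (ε : ℝ) (u : V) : Finset V :=
  univ.filter fun v =>
    ((symmDiff (adjN D true u) (adjN D true v)).card : ℝ) ≤ ε * (Fintype.card V : ℝ)

/-- The sets with respect to which samples are typical. -/
def Fam (D : V → V → Prop) (ε : ℝ) : Finset (Finset V) :=
  (univ.image fun p : Bool × V => adjN D p.1 p.2) ∪
    (univ.image fun p : V × V => symmDiff (adjN D true p.1) (adjN D true p.2)) ∪
    univ.image (near D ε)

/-- `R` meets every set of the family in the right proportion. -/
def Sample (D : V → V → Prop) (ε η : ℝ) (R : Finset V) : Prop :=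
  ∀ F ∈ Fam D ε, |((R ∩ F).card : ℝ) * (Fintype.card V : ℝ) - (R.card : ℝ) * (F.card : ℝ)| ≤
    η * (R.card : ℝ) * (Fintype.card V : ℝ)

/-- The digraphs of the main theorem. -/
structure Host (D : V → V → Prop) (ε : ℝ) : Prop where
  pos : 0 < ε
  le : ε ≤ 1
  irr : ∀ v, ¬ D v v
  deg : ∀ b u, (1 / 2 - ε / 20) * (Fintype.card V : ℝ) ≤ ((adjN D b u).card : ℝ)
  ne : ¬ Ext D ε

/-! ### Trees -/

/-- A rooted tree on `Fin n` with root `0`, every other vertex `i` having a parent `par i < i`; the
arc between them is `par i → i` if `sg i`, and `i → par i` otherwise. -/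
structure PTree (n : ℕ) where
  par : Fin n → Fin n
  sg : Fin n → Bool
  lt : ∀ i : Fin n, (i : ℕ) ≠ 0 → par i < i

variable {n : ℕ}

/-- The children of `v`. -/
def PTree.ch (T : PTree n) (v : Fin n) : Finset (Fin n) :=
  univ.filter fun i => (i : ℕ) ≠ 0 ∧ T.par i = v

/-- The number of children. -/
def PTree.nch (T : PTree n) (v : Fin n) : ℕ := (T.ch v).card

/-- Every vertex has at most `Δ` children. -/
def PTree.Deg (T : PTree n) (Δ : ℕ) : Prop := ∀ v, T.nch v ≤ Δ

/-- `D` contains `T`. -/
def PTree.Emb (T : PTree n) (D : V → V → Prop) : Prop :=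
  ∃ φ : Fin n → V, Function.Injective φ ∧
    ∀ i : Fin n, (i : ℕ) ≠ 0 → Adj D (T.sg i) (φ (T.par i)) (φ i)

/-- The top of the component of `v` after removal of `U` (junk if `v ∈ U`). -/
def PTree.rt (T : PTree n) (U : Finset (Fin n)) (v : Fin n) : Fin n :=
  if h : (v : ℕ) = 0 ∨ v ∈ U ∨ T.par v ∈ U then v else T.rt U (T.par v)
termination_by (v : ℕ)
decreasing_by exact T.lt v (fun h0 => h (Or.inl h0))

/-- `z` is the top of a component of `T - U`. -/
def PTree.Top (T : PTree n) (U : Finset (Fin n)) (z : Fin n) : Prop := z ∉ U ∧ T.par z ∈ U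

/-- A good set of vertices to remove: the components of the rest are small, and the parents and
grandparents of the tops of the components are in `U` and form disjoint pairs. -/
structure PTree.Good (T : PTree n) (U : Finset (Fin n)) (K : ℕ) : Prop where
  root : ∀ i : Fin n, (i : ℕ) = 0 → i ∈ U
  small : ∀ z, (univ.filter fun w => w ∉ U ∧ T.rt U w = z).card ≤ K
  par_ne : ∀ z, T.Top U z → (T.par z : ℕ) ≠ 0
  par2 : ∀ z, T.Top U z → T.par (T.par z) ∈ U
  disj1 : ∀ z z', T.Top U z → T.Top U z' → T.par z = T.par z' → z = z'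
  disj2 : ∀ z z', T.Top U z → T.Top U z' → T.par (T.par z) = T.par (T.par z') → z = z'
  disj3 : ∀ z z', T.Top U z → T.Top U z' → T.par z ≠ T.par (T.par z')

/-- A role system: the vertices outside `U` are classified by finitely many roles; the role of a
vertex determines the role of its parent, its sign and its number of children, and taking parents
is a bijection between the vertices of a role and the vertices of the parent role. -/
structure Roles (T : PTree n) (U : Finset (Fin n)) (R : Type) where
  role : Fin n → R
  prl : R → Option R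
  sgl : R → Bool
  ncl : R → ℕ
  top : ∀ v, v ∉ U → T.par v ∈ U → prl (role v) = none
  par : ∀ v, v ∉ U → T.par v ∉ U → prl (role v) = some (role (T.par v))
  sg : ∀ v, v ∉ U → sgl (role v) = T.sg v
  nc : ∀ v, v ∉ U → ncl (role v) = T.nch v
  inj : ∀ v w, v ∉ U → w ∉ U → T.par v ∉ U → T.par v = T.par w → role v = role w → v = w
  surj : ∀ v, v ∉ U → T.par v ∉ U → ∀ u, u ∉ U → role u = role (T.par v) →
    ∃ w, w ∉ U ∧ role w = role v ∧ T.par w = u

/-- The vertices outside `U` with role `ρ`. -/
def Roles.cls {T : PTree n} {U : Finset (Fin n)} {R : Type} (S : Roles T U R) (ρ : R) :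
    Finset (Fin n) := univ.filter fun v => v ∉ U ∧ S.role v = ρ

end

end OT
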