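import Pool.Agent.Helper27.OT.Prep

/-!
# MP_2857a5_co : trees with many leaves
-/

set_option autoImplicit false

open Finset
open scoped Classical

namespace OT

noncomputable section

theorem leaf_case {n : ℕ} {V : Type} [Fintype V] {D : V → V → Prop} {ε : ℝ} (h : Host D ε)
    (hn : Fintype.card V = n) {T : PTree n} {U : Finset (Fin n)} {K : ℕ} (hG : T.Good U K)
    {R : Type} [Fintype R] (S : Roles T U R) (Ra : Finset R)
    (hRa : ∀ v, v ∉ U → T.par v ∉ U → (S.role v ∈ Ra ↔ S.role (T.par v) ∈ Ra))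
    (θ : ℝ) (hsamp : Samp D ε θ)
    (hθ1 : ∀ ρ, ρ ∉ Ra → θ * (n : ℝ) ≤ ((S.cls ρ).card : ℝ))
    (σ : Bool) (Λ : Finset R)
    (hΛ : ∀ ρ ∈ Λ, ρ ∉ Ra ∧ (S.cls ρ).Nonempty ∧ S.ncl ρ = 0 ∧ S.sgl ρ = σ ∧ S.prl ρ ≠ none)
    (hinj : Set.InjOn S.prl (Λ : Set R)) (κ : ℝ) (hκθ : θ ≤ κ) (hκ : 0 < κ)
    (hκΛ : κ * (n : ℝ) ≤ ((∑ ρ ∈ Λ, (S.cls ρ).card : ℕ) : ℝ)) (hn0 : 0 < n)
    (hNB1 : ((NBof S Ra).card : ℝ) ≤ ε ^ 2 / 2000 * (κ * n))
    (hNB2 : ((NBof S Ra).card : ℝ) ≤ ε / 400 * (κ * n)) :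
    T.Emb D := by
  have hε := h.pos
  have hε1 := h.le
  set NB := NBof S Ra with hNBdef
  have memNB : ∀ v, v ∈ NB ↔ v ∈ U ∨ S.role v ∈ Ra := fun v => mem_NBof S Ra v
  set m := ∑ ρ ∈ Λ, (S.cls ρ).card with hm
  set Lf : Finset (Fin n) := univ.filter fun v => v ∉ U ∧ S.role v ∈ Λ with hLf
  have memLf : ∀ v, v ∈ Lf ↔ v ∉ U ∧ S.role v ∈ Λ := by intro v; simp [hLf]
  have hLfm : Lf.card = m := card_cls_sum S Λ
  have hnR : (0 : ℝ) < n := by exact_mod_cast hn0
  have hmpos : 0 < (m : ℝ) := lt_of_lt_of_le (by positivity) hκΛ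
  have hmpos' : 0 < m := by exact_mod_cast hmpos
  -- basic facts
  have nch_pos : ∀ v : Fin n, (v : ℕ) ≠ 0 → 0 < T.nch (T.par v) := by
    intro v hv
    unfold PTree.nch
    rw [Finset.card_pos]
    exact ⟨v, by simp [PTree.ch, hv]⟩
  have notroot : ∀ v : Fin n, v ∉ U → (v : ℕ) ≠ 0 := fun v hv h0 => hv (hG.root v h0)
  have noΛ : ∀ v : Fin n, (v : ℕ) ≠ 0 → T.par v ∉ U → S.role (T.par v) ∉ Λ := by
    intro v hv hp hl
    have h1 := (hΛ _ hl).2.2.1
    rw [S.nc _ hp] at h1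
    have := nch_pos v hv
    omega
  have parL : ∀ v, v ∈ Lf → T.par v ∉ U := by
    intro v hv hp
    rw [memLf] at hv
    exact (hΛ _ hv.2).2.2.2.2 (S.top v hv.1 hp)
  have prlL : ∀ v, v ∈ Lf → S.prl (S.role v) = some (S.role (T.par v)) := by
    intro v hv
    exact S.par v ((memLf v).mp hv).1 (parL v hv)
  have notRaL : ∀ v, v ∈ Lf → S.role (T.par v) ∉ Ra := by
    intro v hv hr
    have h1 := (memLf v).mp hv
    exact (hΛ _ h1.2).1 ((hRa v h1.1 (parL v hv)).mpr hr)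
  have parInj : ∀ v ∈ Lf, ∀ w ∈ Lf, T.par v = T.par w → v = w := by
    intro v hv w hw hvw
    have h1 := prlL v hv
    have h2 := prlL w hw
    rw [← hvw] at h2
    have hr : S.role v = S.role w :=
      hinj ((memLf v).mp hv).2 ((memLf w).mp hw).2 (h1.trans h2.symm)
    exact S.inj v w ((memLf v).mp hv).1 ((memLf w).mp hw).1 (parL v hv) hvw hr
  obtain ⟨φ, W, Q, hW, hWd, hQ, -, hWQ, hφW, hφQ, hφinj, hφe⟩ := prep h hn hG S Ra Λ hRa (by
      rw [Finset.disjoint_left]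
      intro ρ h1 h2
      exact (hΛ ρ h2).1 h1) (by
      intro v hv0 _ hp
      exact noΛ v hv0 hp) Unit (fun _ => NB.card + m) () (by
      simp only [Finset.univ_unique, Finset.sum_const, Finset.card_singleton, one_smul]
      rw [hm, ← card_cls_sum]) θ hsamp hθ1 (by
      intro _
      push_cast
      have h1 : θ * (n : ℝ) ≤ κ * n := by gcongr
      have h2 : (0 : ℝ) ≤ (NB.card : ℝ) := by positivity
      linarith) (by
      push_cast
      refine le_trans hNB1 ?_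
      have h2 : (0 : ℝ) ≤ (NB.card : ℝ) := by positivity
      have : κ * (n : ℝ) ≤ (NB.card : ℝ) + m := by linarith
      gcongr) (by omega)
  -- the set P of parents' images
  set PR : Finset R := Lf.image fun v => S.role (T.par v) with hPR
  have PRok : ∀ ρ ∈ PR, ρ ∉ Ra ∧ ρ ∉ Λ := by
    intro ρ hρ
    rw [hPR, Finset.mem_image] at hρ
    obtain ⟨v, hv, rfl⟩ := hρ
    exact ⟨notRaL v hv, noΛ v (notroot v ((memLf v).mp hv).1) (parL v hv)⟩
  set P : Finset V := PR.biUnion W with hP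
  have hPcard : P.card = m := by
    rw [hP, Finset.card_biUnion (fun ρ hρ ρ' hρ' hne =>
      hWd ρ (PRok ρ hρ).1 (PRok ρ hρ).2 ρ' (PRok ρ' hρ').1 (PRok ρ' hρ').2 hne)]
    rw [Finset.sum_congr rfl (fun ρ hρ => (hW ρ (PRok ρ hρ).1 (PRok ρ hρ).2).1)]
    rw [← card_cls_sum, ← hLfm]
    have : (univ.filter fun v => v ∉ U ∧ S.role v ∈ PR) = Lf.image T.par := by
      ext u
      simp only [mem_filter, mem_univ, true_and, Finset.mem_image, hPR]
      constructor
      · rintro ⟨hu, v, hv, hvu⟩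
        obtain ⟨w, hw, hwr, hwp⟩ := S.surj v ((memLf v).mp hv).1 (parL v hv) u hu hvu.symm
        refine ⟨w, ?_, hwp⟩
        rw [memLf, hwr]
        exact ⟨hw, ((memLf v).mp hv).2⟩
      · rintro ⟨v, hv, rfl⟩
        exact ⟨parL v hv, v, hv, rfl⟩
    rw [this, Finset.card_image_of_injOn]
    intro v hv w hw hvw
    exact parInj v hv w hw hvw
  have hPs : Sample D ε (ε / 20) P := by
    rw [hP]
    apply Sample.biUnion
    · intro ρ hρ
      exact (hW ρ (PRok ρ hρ).1 (PRok ρ hρ).2).2.mono (by linarith)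
    · intro ρ hρ ρ' hρ' hne
      exact hWd ρ (PRok ρ hρ).1 (PRok ρ hρ).2 ρ' (PRok ρ' hρ').1 (PRok ρ' hρ').2 hne
  -- the remaining part of Q
  set Im : Finset V := NB.image φ with hIm
  have hImQ : Im ⊆ Q () := by
    intro x hx
    rw [hIm, Finset.mem_image] at hx
    obtain ⟨v, hv, rfl⟩ := hx
    exact hφQ v hv
  have hImcard : Im.card = NB.card := by
    rw [hIm, Finset.card_image_of_injOn]
    intro v hv w hw hvw
    exact hφinj (Or.inl hv) (Or.inl hw) hvw
  set Rm : Finset V := Q () \ Im with hRm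
  have hRmcard : Rm.card = m := by
    rw [hRm, Finset.card_sdiff_of_subset hImQ, (hQ ()).1, hImcard]
    omega
  have hQRm : Q () \ Rm = Im := by
    rw [hRm, Finset.sdiff_sdiff_eq_self hImQ]
  have hRms : Sample D ε (ε / 20) Rm := by
    have := (hQ ()).2.sub (δ := ε / 400) (R := Rm) (by positivity) (by positivity) (by linarith)
      (by rw [hRm]; exact Finset.sdiff_subset) (by
        rw [hQRm, hImcard, (hQ ()).1]
        refine le_trans hNB2 ?_
        push_cast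
        have h2 : (0 : ℝ) ≤ (NB.card : ℝ) := by positivity
        have : κ * (n : ℝ) ≤ (NB.card : ℝ) + m := by linarith
        gcongr)
    exact this.mono (by linarith)
  obtain ⟨f, hf1, hf2, hf3⟩ := h.matching hPs hRms (by rw [hPcard, hRmcard]) σ
  -- the final embedding
  have memP : ∀ v, v ∈ Lf → φ (T.par v) ∈ P := by
    intro v hv
    rw [hP, Finset.mem_biUnion]
    refine ⟨S.role (T.par v), ?_, ?_⟩
    · rw [hPR, Finset.mem_image]
      exact ⟨v, hv, rfl⟩
    · exact hφW _ (parL v hv) (notRaL v hv)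
        (noΛ v (notroot v ((memLf v).mp hv).1) (parL v hv))
  have hkept : ∀ v, v ∉ Lf → v ∈ NB ∨ S.role v ∉ Λ := by
    intro v hv
    rw [memLf] at hv
    rw [memNB]
    tauto
  have hdis : ∀ v, v ∉ Lf → ∀ w, w ∈ Lf → φ v ≠ f (φ (T.par w)) := by
    intro v hv w hw heq
    have h1 := hf1 _ (memP w hw)
    rw [← heq, hRm, Finset.mem_sdiff] at h1
    by_cases hvn : v ∈ NB
    · apply h1.2
      rw [hIm]
      exact Finset.mem_image_of_mem _ hvn
    · have hvn' := hvn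
      rw [memNB, not_or] at hvn'
      have h2 := (hkept v hv).resolve_left hvn
      exact Finset.disjoint_left.mp (hWQ _ hvn'.2 h2 ()) (hφW v hvn'.1 hvn'.2 h2) h1.1
  refine ⟨fun v => if v ∈ Lf then f (φ (T.par v)) else φ v, ?_, ?_⟩
  · intro v w hvw
    simp only at hvw
    by_cases hv : v ∈ Lf <;> by_cases hw : w ∈ Lf
    · rw [if_pos hv, if_pos hw] at hvw
      have h1 := hf2 (memP v hv) (memP w hw) hvw
      have key : ∀ u, u ∈ Lf → (T.par u ∈ NB ∨ S.role (T.par u) ∉ Λ) := fun u hu =>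
        Or.inr (noΛ u (notroot u ((memLf u).mp hu).1) (parL u hu))
      exact parInj v hv w hw (hφinj (key v hv) (key w hw) h1)
    · rw [if_pos hv, if_neg hw] at hvw
      exact absurd hvw.symm (hdis w hw v hv)
    · rw [if_neg hv, if_pos hw] at hvw
      exact absurd hvw (hdis v hv w hw)
    · rw [if_neg hv, if_neg hw] at hvw
      exact hφinj (hkept v hv) (hkept w hw) hvw
  · intro v hv0
    have hpl : T.par v ∉ Lf := by
      intro hp
      rw [memLf] at hp
      exact noΛ v hv0 hp.1 hp.2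
    simp only [if_neg hpl]
    by_cases hv : v ∈ Lf
    · rw [if_pos hv]
      have h1 := hf3 _ (memP v hv)
      have h2 := (memLf v).mp hv
      rw [← S.sg v h2.1, (hΛ _ h2.2).2.2.2.1]
      exact h1
    · rw [if_neg hv]
      exact hφe v hv0 (hkept v hv) (hkept _ hpl)

end

end OT
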