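import Pool.Agent.Helper27.OT.Defs
import Pool.Agent.Helper37.OT.KL
import Pool.Agent.Helper42.OT.RL
import Pool.Agent.Helper91.OT.RE
import Pool.Agent.Helper73.OT.NB
import Pool.Agent.Helper45.OT.GR

/-!
# MP_2857a5_co : preparation (sampling, roles, greedy), common to the two cases
-/

set_option autoImplicit false

open Finset
open scoped Classical

namespace OT

noncomputable section

/-- The conclusion of the sampling lemma for a host. -/
def Samp {V : Type} [Fintype V] (D : V → V → Prop) (ε θ : ℝ) : Prop :=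
  ∀ (J : Type) [Fintype J] (s : J → ℕ), ∑ j, s j = Fintype.card V →
    (∀ j, θ * (Fintype.card V : ℝ) ≤ (s j : ℝ)) →
    ∃ P : J → Finset V, (∀ i j, i ≠ j → Disjoint (P i) (P j)) ∧
      ∀ j, (P j).card = s j ∧ Sample D ε (ε / 400) (P j)

theorem mem_NBof {n : ℕ} {T : PTree n} {U : Finset (Fin n)} {R : Type} (S : Roles T U R)
    (Ra : Finset R) (v : Fin n) : v ∈ NBof S Ra ↔ v ∈ U ∨ S.role v ∈ Ra := by
  simp [NBof]

theorem card_cls_sum {n : ℕ} {T : PTree n} {U : Finset (Fin n)} {R : Type} (S : Roles T U R)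
    (J : Finset R) :
    (univ.filter fun v => v ∉ U ∧ S.role v ∈ J).card = ∑ ρ ∈ J, (S.cls ρ).card := by
  have : (univ.filter fun v => v ∉ U ∧ S.role v ∈ J) = J.biUnion fun ρ => S.cls ρ := by
    ext v
    simp only [Roles.cls, mem_filter, mem_univ, true_and, mem_biUnion]
    constructor
    · rintro ⟨h1, h2⟩
      exact ⟨_, h2, h1, rfl⟩
    · rintro ⟨ρ, h1, h2, h3⟩
      rw [h3]
      exact ⟨h2, h1⟩
  rw [this, Finset.card_biUnion]
  intro ρ _ ρ' _ hne
  rw [Function.onFun, Finset.disjoint_left]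
  intro v hv hv'
  simp only [Roles.cls, mem_filter, mem_univ, true_and] at hv hv'
  exact hne (hv.2.symm.trans hv'.2)

theorem NBof_card {n : ℕ} {T : PTree n} {U : Finset (Fin n)} {R : Type} (S : Roles T U R)
    (Ra : Finset R) : (NBof S Ra).card ≤ U.card + ∑ ρ ∈ Ra, (S.cls ρ).card := by
  have h1 : NBof S Ra ⊆ U ∪ univ.filter fun v => v ∉ U ∧ S.role v ∈ Ra := by
    intro v hv
    rw [mem_NBof] at hv
    simp only [mem_union, mem_filter, mem_univ, true_and]
    by_cases hvU : v ∈ U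
    · exact Or.inl hvU
    · exact Or.inr ⟨hvU, hv.resolve_left hvU⟩
  rw [← card_cls_sum]
  exact le_trans (Finset.card_le_card h1) (Finset.card_union_le _ _)

theorem prep {n : ℕ} {V : Type} [Fintype V] {D : V → V → Prop} {ε : ℝ} (h : Host D ε)
    (hn : Fintype.card V = n) {T : PTree n} {U : Finset (Fin n)} {K : ℕ} (hG : T.Good U K)
    {R : Type} [Fintype R] (S : Roles T U R) (Ra DR : Finset R)
    (hRa : ∀ v, v ∉ U → T.par v ∉ U → (S.role v ∈ Ra ↔ S.role (T.par v) ∈ Ra))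
    (hdisj : Disjoint Ra DR)
    (hDR : ∀ v : Fin n, (v : ℕ) ≠ 0 → v ∈ NBof S Ra → T.par v ∉ U → S.role (T.par v) ∉ DR)
    (I : Type) [Fintype I] (s : I → ℕ) (i₀ : I)
    (hs : ∑ i, s i = (NBof S Ra).card +
      (univ.filter fun v => v ∉ U ∧ S.role v ∈ DR).card)
    (θ : ℝ) (hsamp : Samp D ε θ)
    (hθ1 : ∀ ρ, ρ ∉ Ra → θ * (n : ℝ) ≤ ((S.cls ρ).card : ℝ))
    (hθ2 : ∀ i, θ * (n : ℝ) ≤ (s i : ℝ))
    (hNB : ((NBof S Ra).card : ℝ) ≤ ε ^ 2 / 2000 * (s i₀ : ℝ)) (hpos : 0 < s i₀) :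
    ∃ (φ : Fin n → V) (W : R → Finset V) (Q : I → Finset V),
      (∀ ρ, ρ ∉ Ra → ρ ∉ DR → (W ρ).card = (S.cls ρ).card ∧ Sample D ε (ε / 400) (W ρ)) ∧
      (∀ ρ, ρ ∉ Ra → ρ ∉ DR → ∀ ρ', ρ' ∉ Ra → ρ' ∉ DR → ρ ≠ ρ' → Disjoint (W ρ) (W ρ')) ∧
      (∀ i, (Q i).card = s i ∧ Sample D ε (ε / 400) (Q i)) ∧
      (∀ i j, i ≠ j → Disjoint (Q i) (Q j)) ∧
      (∀ ρ, ρ ∉ Ra → ρ ∉ DR → ∀ i, Disjoint (W ρ) (Q i)) ∧
      (∀ v, v ∉ U → S.role v ∉ Ra → S.role v ∉ DR → φ v ∈ W (S.role v)) ∧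
      (∀ v, v ∈ NBof S Ra → φ v ∈ Q i₀) ∧
      Set.InjOn φ {v | v ∈ NBof S Ra ∨ S.role v ∉ DR} ∧
      ∀ v : Fin n, (v : ℕ) ≠ 0 → (v ∈ NBof S Ra ∨ S.role v ∉ DR) →
        (T.par v ∈ NBof S Ra ∨ S.role (T.par v) ∉ DR) →
        Adj D (T.sg v) (φ (T.par v)) (φ v) := by
  subst hn
  set NB := NBof S Ra with hNBdef
  set J : Finset R := univ.filter fun ρ => ρ ∉ Ra ∧ ρ ∉ DR with hJ
  have memJ : ∀ ρ, ρ ∈ J ↔ ρ ∉ Ra ∧ ρ ∉ DR := by intro ρ; simp [hJ]
  have memNB : ∀ v, v ∈ NB ↔ v ∈ U ∨ S.role v ∈ Ra := fun v => mem_NBof S Ra v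
  -- counting
  have hcount : (univ.filter fun v => v ∉ U ∧ S.role v ∈ J).card + NB.card +
      (univ.filter fun v => v ∉ U ∧ S.role v ∈ DR).card = Fintype.card V := by
    have h1 : (univ.filter fun v => v ∉ U ∧ S.role v ∈ J) ∪ NB ∪
      (univ.filter fun v => v ∉ U ∧ S.role v ∈ DR) = univ := by
      ext v
      simp only [mem_union, mem_filter, mem_univ, true_and, memJ, memNB, iff_true]
      tauto
    have h2 : Disjoint (univ.filter fun v => v ∉ U ∧ S.role v ∈ J) NB := by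
      rw [Finset.disjoint_left]
      intro v hv hv'
      simp only [mem_filter, mem_univ, true_and, memJ, memNB] at hv hv'
      tauto
    have h3 : Disjoint ((univ.filter fun v => v ∉ U ∧ S.role v ∈ J) ∪ NB)
        (univ.filter fun v => v ∉ U ∧ S.role v ∈ DR) := by
      rw [Finset.disjoint_left]
      intro v hv hv'
      have := Finset.disjoint_left.mp hdisj
      simp only [mem_union, mem_filter, mem_univ, true_and, memJ, memNB] at hv hv'
      rcases hv with hv | hv | hv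
      · tauto
      · tauto
      · exact this hv hv'.2
    rw [← Finset.card_union_of_disjoint h2, ← Finset.card_union_of_disjoint h3, h1]
    simp
  -- sampling
  obtain ⟨P, hPd, hP⟩ := hsamp ({ρ // ρ ∈ J} ⊕ I)
    (fun j => Sum.elim (fun ρ : {ρ // ρ ∈ J} => (S.cls ρ.1).card) s j) (by
      rw [Fintype.sum_sum_type]
      simp only [Sum.elim_inl, Sum.elim_inr]
      rw [hs]
      have : ∑ x : {ρ // ρ ∈ J}, (S.cls x.1).card = ∑ ρ ∈ J, (S.cls ρ).card := by
        rw [← Finset.sum_coe_sort J (fun ρ => (S.cls ρ).card)]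
      rw [this, ← card_cls_sum]
      omega) (by
      rintro (⟨ρ, hρ⟩ | i)
      · simpa using hθ1 ρ ((memJ ρ).mp hρ).1
      · simpa using hθ2 i)
  set W : R → Finset V := fun ρ =>
    if hρ : ρ ∈ J then P (Sum.inl ⟨ρ, hρ⟩) else ∅ with hW
  set Q : I → Finset V := fun i => P (Sum.inr i) with hQ
  have W1 : ∀ ρ, ρ ∈ J → (W ρ).card = (S.cls ρ).card ∧ Sample D ε (ε / 400) (W ρ) := by
    intro ρ hρ
    simp only [hW, hρ, dif_pos]
    exact hP (Sum.inl ⟨ρ, hρ⟩)
  have W2 : ∀ ρ ρ', ρ ≠ ρ' → Disjoint (W ρ) (W ρ') := by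
    intro ρ ρ' hne
    by_cases h1 : ρ ∈ J
    · by_cases h2 : ρ' ∈ J
      · simp only [hW, h1, h2, dif_pos]
        apply hPd
        intro h3
        simp only [Sum.inl.injEq, Subtype.mk.injEq] at h3
        exact hne h3
      · simp [hW, h2]
    · simp [hW, h1]
  have Q2 : ∀ i j, i ≠ j → Disjoint (Q i) (Q j) := by
    intro i j hne
    apply hPd
    intro h3
    simp only [Sum.inr.injEq] at h3
    exact hne h3
  have WQ : ∀ ρ i, Disjoint (W ρ) (Q i) := by
    intro ρ i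
    by_cases h1 : ρ ∈ J
    · simp only [hW, h1, dif_pos]
      apply hPd
      simp
    · simp [hW, h1]
  have Q1 : ∀ i, (Q i).card = s i ∧ Sample D ε (ε / 400) (Q i) := by
    intro i
    exact hP (Sum.inr i)
  have hε := h.pos
  obtain ⟨φ₀, hφ1, hφ2, hφ3⟩ := role_embed h hG.root S J W
    (fun ρ hρ => ⟨(W1 ρ hρ).1, (W1 ρ hρ).2.mono (by linarith)⟩)
    (fun ρ _ ρ' _ hne => W2 ρ ρ' hne)
  set Bs : Finset (Fin (Fintype.card V)) := univ.filter fun v => v ∉ U ∧ S.role v ∈ J with hBs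
  have memBs : ∀ v, v ∈ Bs ↔ v ∉ U ∧ S.role v ∈ J := by intro v; simp [hBs]
  have hQ0 : (Q i₀).Nonempty := by
    rw [← Finset.card_pos, (Q1 i₀).1]
    exact hpos
  have : Nonempty V := ⟨hQ0.choose⟩
  have hQs : Sample D ε (ε / 20) (Q i₀) := (Q1 i₀).2.mono (by linarith)
  have hUs : ∀ Us ⊆ Q i₀, Us.card < NB.card → (Us.card : ℝ) ≤ ε ^ 2 / 2000 * ((Q i₀).card : ℝ) := by
    intro Us _ hlt
    rw [(Q1 i₀).1]
    refine le_trans ?_ hNB
    exact_mod_cast hlt.le
  obtain ⟨φ, g1, g2, g3, g4⟩ := greedy D T hG Bs NB (by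
      intro v hv
      rw [memNB]
      exact Or.inl hv) (by
      rw [Finset.disjoint_left]
      intro v hv hv'
      rw [memBs, memJ] at hv
      rw [memNB] at hv'
      tauto) (by
      intro v hv hv0
      by_cases hp : T.par v ∈ NB
      · exact mem_union_left _ hp
      · apply mem_union_right
        have hp' := hp
        rw [memNB, not_or] at hp'
        rw [memBs, memJ]
        exact ⟨hp'.1, hp'.2, hDR v hv0 hv hp'.1⟩) (by
      intro v hv hp
      by_contra hpU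
      rw [memNB] at hp
      rw [memBs, memJ] at hv
      rcases hp with hp | hp
      · exact hpU hp
      · exact hv.2.1 ((hRa v hv.1 hpU).mpr hp)) (Q i₀) φ₀ (by
      intro v hv w hw hvw
      have hv' : v ∈ Bs := hv
      have hw' : w ∈ Bs := hw
      rw [memBs] at hv' hw'
      exact hφ2 hv' hw' hvw) (by
      intro v hv
      rw [memBs] at hv
      exact Finset.disjoint_left.mp (WQ _ i₀) (hφ1 v hv.1 hv.2)) (by
      intro Us hs' hlt u b
      exact h.single hQs (hUs Us hs' hlt) hQ0 u b) (by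
      intro Us hs' hlt u v b1 b2 b3
      exact h.connect hQs (hUs Us hs' hlt) hQ0 u v b1 b2 b3)
  have hcase : ∀ v, (v ∈ NB ∨ S.role v ∉ DR) → v ∈ NB ∨ v ∈ Bs := by
    intro v hv
    by_cases hvn : v ∈ NB
    · exact Or.inl hvn
    · right
      have hvn' := hvn
      rw [memNB, not_or] at hvn'
      rw [memBs, memJ]
      rcases hv with hv | hv
      · exact absurd hv hvn
      · exact ⟨hvn'.1, hvn'.2, hv⟩
  have hBW : ∀ v, v ∈ Bs → φ v ∈ W (S.role v) := by
    intro v hv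
    rw [g1 v hv]
    rw [memBs] at hv
    exact hφ1 v hv.1 hv.2
  refine ⟨φ, W, Q, ?_, ?_, Q1, Q2, ?_, ?_, g2, ?_, ?_⟩
  · intro ρ h1 h2
    exact W1 ρ ((memJ ρ).mpr ⟨h1, h2⟩)
  · intro ρ _ _ ρ' _ _ hne
    exact W2 ρ ρ' hne
  · intro ρ _ _ i
    exact WQ ρ i
  · intro v h1 h2 h3
    exact hBW v ((memBs v).mpr ⟨h1, (memJ _).mpr ⟨h2, h3⟩⟩)
  · intro v hv w hw hvw
    rcases hcase v hv with hv1 | hv1 <;> rcases hcase w hw with hw1 | hw1
    · exact g3 hv1 hw1 hvw
    · exfalso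
      have := Finset.disjoint_left.mp (WQ (S.role w) i₀) (hBW w hw1)
      rw [← hvw] at this
      exact this (g2 v hv1)
    · exfalso
      have := Finset.disjoint_left.mp (WQ (S.role v) i₀) (hBW v hv1)
      rw [hvw] at this
      exact this (g2 w hw1)
    · rw [g1 v hv1, g1 w hw1] at hvw
      exact hφ2 ((memBs v).mp hv1) ((memBs w).mp hw1) hvw
  · intro v hv0 hv hp
    have hv1 := hcase v hv
    have hp1 := hcase _ hp
    by_cases hnb : v ∈ NB ∨ T.par v ∈ NB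
    · refine g4 v hv0 ?_ ?_ hnb
      · rcases hv1 with h1 | h1
        · exact mem_union_right _ h1
        · exact mem_union_left _ h1
      · rcases hp1 with h1 | h1
        · exact mem_union_right _ h1
        · exact mem_union_left _ h1
    · rw [not_or] at hnb
      have hv2 := hv1.resolve_left hnb.1
      have hp2 := hp1.resolve_left hnb.2
      rw [g1 v hv2, g1 _ hp2]
      rw [memBs] at hv2 hp2
      exact hφ3 v hv2.1 hv2.2 hp2.1 hp2.2

end

end OT
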