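import Pool.Agent.Helper27.OT.Defs

/-!
# MP_2857a5_co : statements of all modules (stubs)
-/

set_option autoImplicit false

open Finset
open scoped Classical

namespace OT

noncomputable section

/-! ## Module KL (samples, key lemma, matching, connection) -/

section KL

variable {V : Type} [Fintype V] {D : V → V → Prop} {ε η δ : ℝ}

theorem fam_card (D : V → V → Prop) (ε : ℝ) :
    (Fam D ε).card ≤ 5 * (Fintype.card V) ^ 2 := sorry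

theorem Sample.mono {R : Finset V} (h : Sample D ε η R) {η' : ℝ} (hη : η ≤ η') :
    Sample D ε η' R := sorry

theorem Sample.sub {Q R : Finset V} (h : Sample D ε η Q) (hη : 0 ≤ η) (hδ0 : 0 ≤ δ)
    (hδ : δ ≤ 1 / 2) (hR : R ⊆ Q) (hc : ((Q \ R).card : ℝ) ≤ δ * (Q.card : ℝ)) :
    Sample D ε (2 * (η + δ)) R := sorry

theorem Sample.biUnion {ι : Type} (I : Finset ι) (W : ι → Finset V)
    (hW : ∀ i ∈ I, Sample D ε η (W i))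
    (hd : ∀ i ∈ I, ∀ j ∈ I, i ≠ j → Disjoint (W i) (W j)) :
    Sample D ε η (I.biUnion W) := sorry

theorem Sample.deg (h : Host D ε) {R : Finset V} (hR : Sample D ε (ε / 20) R) (b : Bool) (u : V) :
    (1 / 2 - ε / 10) * (R.card : ℝ) ≤ ((R ∩ adjN D b u).card : ℝ) := sorry

theorem Host.key (h : Host D ε) {P R S Q : Finset V} (hP : Sample D ε (ε / 20) P)
    (hR : Sample D ε (ε / 20) R) (hS : S ⊆ P) (hQ : Q ⊆ R)
    (hS1 : (1 / 2 - ε / 10) * (P.card : ℝ) ≤ (S.card : ℝ))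
    (hQ1 : (1 / 2 - ε / 10) * (R.card : ℝ) ≤ (Q.card : ℝ)) :
    ε ^ 2 / 400 * (P.card : ℝ) * (R.card : ℝ) ≤ (arcs D S Q : ℝ) := sorry

theorem Host.matching (h : Host D ε) {P R : Finset V} (hP : Sample D ε (ε / 20) P)
    (hR : Sample D ε (ε / 20) R) (hc : P.card = R.card) (b : Bool) :
    ∃ f : V → V, (∀ x ∈ P, f x ∈ R) ∧ Set.InjOn f (P : Set V) ∧ ∀ x ∈ P, Adj D b x (f x) := sorry

theorem Host.single (h : Host D ε) {Q Us : Finset V} (hQ : Sample D ε (ε / 20) Q)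
    (hUs : (Us.card : ℝ) ≤ ε ^ 2 / 2000 * (Q.card : ℝ)) (hQ0 : Q.Nonempty) (u : V) (b : Bool) :
    ∃ x ∈ Q \ Us, Adj D b u x := sorry

theorem Host.connect (h : Host D ε) {Q Us : Finset V} (hQ : Sample D ε (ε / 20) Q)
    (hUs : (Us.card : ℝ) ≤ ε ^ 2 / 2000 * (Q.card : ℝ)) (hQ0 : Q.Nonempty) (u v : V)
    (b1 b2 b3 : Bool) :
    ∃ x ∈ Q \ Us, ∃ y ∈ Q \ Us, x ≠ y ∧ Adj D b1 u x ∧ Adj D b2 x y ∧ Adj D b3 y v := sorry

end KL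

/-! ## Module SA (sampling) -/

theorem sampling (η θ : ℝ) (hη : 0 < η) (hθ : 0 < θ) : ∃ N₀ : ℕ, ∀ (V : Type) [Fintype V],
    N₀ ≤ Fintype.card V → ∀ 𝓕 : Finset (Finset V), 𝓕.card ≤ 5 * (Fintype.card V) ^ 2 →
    ∀ (J : Type) [Fintype J] (s : J → ℕ), ∑ j, s j = Fintype.card V →
    (∀ j, θ * (Fintype.card V : ℝ) ≤ (s j : ℝ)) →
    ∃ c : V → J, ∀ j, (univ.filter fun v => c v = j).card = s j ∧
      ∀ F ∈ 𝓕, |(((univ.filter fun v => c v = j) ∩ F).card : ℝ) * (Fintype.card V : ℝ) -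
        (s j : ℝ) * (F.card : ℝ)| ≤ η * (s j : ℝ) * (Fintype.card V : ℝ) := sorry

/-! ## Module HI (random families, c-lines) -/

theorem hitting {P T : Type} [Fintype P] [Nonempty P] [Fintype T] (G : T → Finset P) (γ : ℝ)
    (hγ : 0 < γ) (hγ1 : γ ≤ 1) (hG : ∀ t, γ * (Fintype.card P : ℝ) ≤ ((G t).card : ℝ)) (s : ℕ) :
    ((univ.filter fun x : Fin s → P =>
      ∃ t, ((univ.filter fun j => x j ∈ G t).card : ℝ) < γ / 4 * s).card : ℝ) ≤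
    (Fintype.card T : ℝ) * Real.exp (-(γ * s / 8)) * (Fintype.card P : ℝ) ^ s := sorry

/-- The line `γ` can be used to exchange two lines. -/
def GoodLine {V : Type} (D : V → V → Prop) (b : ℕ → Bool) (a0 a1 a4 a5 a8 a9 : V)
    (γ : Fin 10 → V) : Prop :=
  Adj D (b 0) a0 (γ 1) ∧ Adj D (b 0) (γ 0) a1 ∧ Adj D (b 4) a4 (γ 5) ∧ Adj D (b 4) (γ 4) a5 ∧
    Adj D (b 8) a8 (γ 9) ∧ Adj D (b 8) (γ 8) a9

theorem clines (ε : ℝ) (hε : 0 < ε) (hε1 : ε ≤ 1) : ∃ κ : ℝ, 0 < κ ∧ ∀ θ : ℝ, 0 < θ →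
    ∃ N₀ : ℕ, ∀ (V : Type) [Fintype V], N₀ ≤ Fintype.card V → ∀ D : V → V → Prop, Host D ε →
    ∀ (W : ℕ → Finset V) (m : ℕ), (∀ i ≤ 9, (W i).card = m ∧ Sample D ε (ε / 80) (W i)) →
    θ * (Fintype.card V : ℝ) ≤ (m : ℝ) → ∀ b : ℕ → Bool,
    ∃ C : Finset (Fin 10 → V),
      (∀ γ ∈ C, ∀ i : Fin 10, γ i ∈ W i) ∧
      (∀ γ ∈ C, ∀ i : Fin 9, Adj D (b i) (γ i.castSucc) (γ i.succ)) ∧
      (∀ γ ∈ C, ∀ γ' ∈ C, γ ≠ γ' → ∀ i, γ i ≠ γ' i) ∧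
      (C.card : ℝ) ≤ ε / 80 * (m : ℝ) ∧
      ∀ a0 a1 a4 a5 a8 a9 : V,
        κ * (m : ℝ) ≤ ((C.filter fun γ => GoodLine D b a0 a1 a4 a5 a8 a9 γ).card : ℝ) := sorry

/-! ## Module BL (blocks) -/

/-- A system of paths through the sets `W 0, ..., W k` following the pattern `b`, disjoint in each
layer. -/
def PSys {V : Type} (D : V → V → Prop) (k : ℕ) (b : ℕ → Bool) (W : ℕ → Finset V) {L : Type}
    (p : L → ℕ → V) : Prop :=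
  (∀ l, ∀ i ≤ k, p l i ∈ W i) ∧ (∀ i ≤ k, Function.Injective fun l => p l i) ∧
    ∀ l, ∀ i < k, Adj D (b i) (p l i) (p l (i + 1))

theorem block (ε : ℝ) (hε : 0 < ε) (hε1 : ε ≤ 1) : ∃ κ : ℝ, 0 < κ ∧ ∀ θ : ℝ, 0 < θ →
    ∃ N₀ : ℕ, ∀ (V : Type) [Fintype V], N₀ ≤ Fintype.card V → ∀ D : V → V → Prop, Host D ε →
    ∀ (W : ℕ → Finset V) (m : ℕ), (∀ i ≤ 9, (W i).card = m ∧ Sample D ε (ε / 80) (W i)) →
    θ * (Fintype.card V : ℝ) ≤ (m : ℝ) → ∀ b : ℕ → Bool,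
    ∀ (L : Type) [Fintype L], Fintype.card L = m → ∀ h : L → V, Function.Injective h →
    (∀ l, h l ∈ W 0) →
    ∃ g : L → V, Function.Injective g ∧ (∀ l, g l ∈ W 9) ∧
      ∀ τ : Equiv.Perm L, (∀ l, τ (τ l) = l) →
        ((univ.filter fun l => τ l ≠ l).card : ℝ) ≤ κ * (m : ℝ) →
        ∃ p : L → ℕ → V, PSys D 9 b W p ∧ (∀ l, p l 0 = h l) ∧ ∀ l, p l 9 = g (τ l) := sorry

/-! ## Module PE (permutations as products of involutions of small support) -/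

theorem perm_decomp {L : Type} [Fintype L] (k B : ℕ) (hk : 1 ≤ k)
    (hB : Fintype.card L ≤ k * B) (τ : Equiv.Perm L) :
    ∃ l : List (Equiv.Perm L), l.length = 2 * B ∧
      (∀ σ ∈ l, (∀ x, σ (σ x) = x) ∧ (univ.filter fun x => σ x ≠ x).card ≤ 2 * k) ∧
      l.prod = τ := sorry

/-! ## Module RO (routing) -/

theorem routing (ε : ℝ) (hε : 0 < ε) (hε1 : ε ≤ 1) : ∃ B : ℕ, 0 < B ∧ ∀ θ : ℝ, 0 < θ →
    ∃ N₀ : ℕ, ∀ (V : Type) [Fintype V], N₀ ≤ Fintype.card V → ∀ D : V → V → Prop, Host D ε →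
    ∀ (W : ℕ → Finset V) (m : ℕ), (∀ i ≤ 9 * B, (W i).card = m ∧ Sample D ε (ε / 80) (W i)) →
    θ * (Fintype.card V : ℝ) ≤ (m : ℝ) → ∀ b : ℕ → Bool,
    ∀ (L : Type) [Fintype L], Fintype.card L = m → ∀ h e : L → V, Function.Injective h →
    Function.Injective e → (∀ l, h l ∈ W 0) → (∀ l, e l ∈ W (9 * B)) →
    ∃ p : L → ℕ → V, PSys D (9 * B) b W p ∧ (∀ l, p l 0 = h l) ∧ ∀ l, p l (9 * B) = e l := sorry

/-! ## Module TD (tree decomposition) -/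

theorem tree_dec (Δ : ℕ) (δ : ℝ) (hδ : 0 < δ) : ∃ K N₀ : ℕ, ∀ n : ℕ, N₀ ≤ n →
    ∀ T : PTree n, T.Deg Δ → ∃ U : Finset (Fin n), T.Good U K ∧ (U.card : ℝ) ≤ δ * (n : ℝ) := sorry

/-! ## Module GR (greedy embedding) -/

theorem greedy {n : ℕ} {V : Type} [Fintype V] [Nonempty V] (D : V → V → Prop) (T : PTree n)
    {U : Finset (Fin n)} {K : ℕ} (hG : T.Good U K) (Bs NB : Finset (Fin n)) (hU : U ⊆ NB)
    (hd : Disjoint Bs NB) (h1 : ∀ v ∈ NB, (v : ℕ) ≠ 0 → T.par v ∈ NB ∪ Bs)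
    (h2 : ∀ v ∈ Bs, T.par v ∈ NB → T.par v ∈ U) (Q : Finset V) (φ₀ : Fin n → V)
    (hφ : Set.InjOn φ₀ (Bs : Set (Fin n))) (hQ : ∀ v ∈ Bs, φ₀ v ∉ Q)
    (hs : ∀ Us ⊆ Q, Us.card < NB.card → ∀ (u : V) (b : Bool), ∃ x ∈ Q \ Us, Adj D b u x)
    (hc : ∀ Us ⊆ Q, Us.card < NB.card → ∀ (u v : V) (b1 b2 b3 : Bool),
      ∃ x ∈ Q \ Us, ∃ y ∈ Q \ Us, x ≠ y ∧ Adj D b1 u x ∧ Adj D b2 x y ∧ Adj D b3 y v) :
    ∃ φ : Fin n → V, (∀ v ∈ Bs, φ v = φ₀ v) ∧ (∀ v ∈ NB, φ v ∈ Q) ∧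
      Set.InjOn φ (NB : Set (Fin n)) ∧
      ∀ v : Fin n, (v : ℕ) ≠ 0 → v ∈ Bs ∪ NB → T.par v ∈ Bs ∪ NB → (v ∈ NB ∨ T.par v ∈ NB) →
        Adj D (T.sg v) (φ (T.par v)) (φ v) := sorry

/-! ## Module RL (roles) -/

theorem exists_roles (Δ K : ℕ) : ∃ M : ℕ, ∀ (n : ℕ) (T : PTree n) (U : Finset (Fin n)),
    T.Deg Δ → T.Good U K → Nonempty (Roles T U (Fin M)) := sorry

section Rl

variable {n : ℕ} {T : PTree n} {U : Finset (Fin n)} {R : Type}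

theorem Roles.cls_card (S : Roles T U R) {v : Fin n} (hv : v ∉ U) (hp : T.par v ∉ U) :
    (S.cls (S.role v)).card = (S.cls (S.role (T.par v))).card := sorry

/-! ## Module RE (embedding of the roles) -/

theorem role_embed {V : Type} [Fintype V] {D : V → V → Prop} {ε : ℝ} (h : Host D ε)
    (h0 : ∀ i : Fin n, (i : ℕ) = 0 → i ∈ U) (S : Roles T U R) (J : Finset R)
    (W : R → Finset V)
    (hW : ∀ ρ ∈ J, (W ρ).card = (S.cls ρ).card ∧ Sample D ε (ε / 20) (W ρ))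
    (hd : ∀ ρ ∈ J, ∀ ρ' ∈ J, ρ ≠ ρ' → Disjoint (W ρ) (W ρ')) :
    ∃ φ₀ : Fin n → V, (∀ v, v ∉ U → S.role v ∈ J → φ₀ v ∈ W (S.role v)) ∧
      Set.InjOn φ₀ {v | v ∉ U ∧ S.role v ∈ J} ∧
      ∀ v, v ∉ U → S.role v ∈ J → T.par v ∉ U → S.role (T.par v) ∈ J →
        Adj D (T.sg v) (φ₀ (T.par v)) (φ₀ v) := sorry

/-! ## Module LC (counting leaves) -/

/-- The vertices that will be embedded greedily. -/
def NBof (S : Roles T U R) (Ra : Finset R) : Finset (Fin n) :=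
  univ.filter fun v => v ∈ U ∨ S.role v ∈ Ra

theorem leaf_roles [Fintype R] (Δ : ℕ) (hΔ : T.Deg Δ)
    (h0 : ∀ i : Fin n, (i : ℕ) = 0 → i ∈ U) (S : Roles T U R) (Ra : Finset R)
    (hRa : ∀ v, v ∉ U → T.par v ∉ U → (S.role v ∈ Ra ↔ S.role (T.par v) ∈ Ra)) :
    ∃ (σ : Bool) (Λ : Finset R),
      (∀ ρ ∈ Λ, ρ ∉ Ra ∧ (S.cls ρ).Nonempty ∧ S.ncl ρ = 0 ∧ S.sgl ρ = σ ∧ S.prl ρ ≠ none) ∧
      Set.InjOn S.prl (Λ : Set R) ∧
      (univ.filter fun v => T.nch v = 0).card ≤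
        2 * Δ * (∑ ρ ∈ Λ, (S.cls ρ).card) + (Δ + 1) * (NBof S Ra).card := sorry

/-! ## Module SC (counting bare segments) -/

theorem segment_roles [Fintype R] (Δ k : ℕ) (hk : 1 ≤ k) (hΔ : T.Deg Δ)
    (h0 : ∀ i : Fin n, (i : ℕ) = 0 → i ∈ U) (S : Roles T U R) (Ra : Finset R)
    (hRa : ∀ v, v ∉ U → T.par v ∉ U → (S.role v ∈ Ra ↔ S.role (T.par v) ∈ Ra)) :
    ∃ (ω : ℕ → Bool) (Y : Finset R),
      (∀ ρ ∈ Y, ρ ∉ Ra ∧ (S.cls ρ).Nonempty) ∧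
      (∀ v, v ∉ U → S.role v ∈ Y →
        (∀ i ≤ k, T.par^[i] v ∉ U) ∧ (∀ i, 1 ≤ i → i ≤ k → T.nch (T.par^[i] v) = 1) ∧
        ∀ i < k, T.sg (T.par^[i] v) = ω (k - 1 - i)) ∧
      (∀ v w, v ∉ U → w ∉ U → S.role v ∈ Y → S.role w ∈ Y → v ≠ w → ∀ i ≤ k, ∀ j ≤ k,
        T.par^[i] v ≠ T.par^[j] w) ∧
      n ≤ 2 ^ k * (k + 1) * (∑ ρ ∈ Y, (S.cls ρ).card) +
        3 * (Δ + 1) ^ (k + 1) * ((univ.filter fun v => T.nch v = 0).card + (NBof S Ra).card) := sorry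

end Rl

/-! ## Module OP (from oriented trees to rooted trees) -/

theorem of_ptree {n : ℕ} (G : Fin n → Fin n → Prop) (Δ : ℕ)
    (h : ∀ T : PTree n, T.Deg Δ → T.Emb G) (T : Fin n → Fin n → Prop)
    (hT : ∀ u v : Fin n, T u v → ¬ T v u) (ht : (SimpleGraph.fromRel T).IsTree)
    (hΔ : ∀ v : Fin n, ((SimpleGraph.fromRel T).neighborSet v).ncard ≤ Δ) :
    ∃ φ : Fin n → Fin n, Function.Injective φ ∧ ∀ u v : Fin n, T u v → G (φ u) (φ v) := sorry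

/-! ## Final (helper27) -/

theorem main (Δ : ℕ) (ε : ℝ) (hε : 0 < ε) (hε1 : ε ≤ 1) : ∃ N : ℕ, ∀ (V : Type) [Fintype V],
    N ≤ Fintype.card V → ∀ D : V → V → Prop, Host D ε →
    ∀ T : PTree (Fintype.card V), T.Deg Δ → T.Emb D := sorry

end

end OT
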